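import Pool.Agent.H2.GEN.AttG
import Pool.Agent.H3.W2.H2.GEN.ChS
import Pool.Agent.H31.W1.H2.GEN.ChT
import Pool.Agent.H31.W1.H80.GEN.Chn

/-!
# Recentred labels in a class

`Rc f a w`: the function `f` is right-continuous at the point along the diagonal.
`TmH S`: the members of the class have positive probability and small time deficit.
`att_rec`: at the points of right-continuity, the labels of a threshold may be taken with the radius
and the window of the point itself (slope law for chains).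
`RelvC`: no relation between the coordinates of a chain, in a class.
-/

set_option autoImplicit false

namespace Pool.W.CHT

open Pool.CHT

open Finset Real MvPolynomial
open Pool.Agent.H49.Ent Pool.Agent.H32.Dense Pool.STK Pool.KA Pool.KSAT Pool.K2S Pool.PB Pool.S6C
open Pool.GEN
open Pool.LBT (LSys Slo Tri ThrOf)
open Pool.LEV (Law)

variable {m J : ℕ} {θ : ℝ} {S : Pool.PB.PCl m} {P : List (Fin m) × Fin m → ℝ → ℝ → ℝ}

/-! ### Auxiliary -/


/-! ### The sides -/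


/-! ### The labels of the thresholds -/


/-! ### No relation -/


/-- **No relation** between the coordinates of the chains of an event: a two-sided polynomial of
degree `D` which is small at the samples is small on the natural boxes. -/
def RelvS (c : ℕ → Fin m) (i : ℕ) (K : ℕ → ℕ) (β d : ℕ → ℝ) (a w e₀ : ℝ) (D : ℕ) (η η' : ℝ) :
    Pool.K2S.Stat m := fun J F A =>
  ∀ (G : Pool.GEN.PtT F → ℕ → MvPolynomial (Option (Fin m)) ℝ)
    (H : Pool.GEN.LnT F → ℕ → MvPolynomial (Option (Fin m)) ℝ),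
    Pool.W.GEN.ChOK F c i K ⌊a * J⌋₊ ⌊w * J⌋₊ ⌊e₀ * J⌋₊ (fun l => ⌊(β l - d l) * J⌋₊) A G H →
    ∀ (Dx : Pool.GEN.PtT F → MvPolynomial (Option (Fin m)) ℝ)
      (Dl : Pool.GEN.LnT F → MvPolynomial (Option (Fin m)) ℝ) (N : ℕ),
      (∀ y, (Dx y).totalDegree ≤ D) → (∀ s, (Dl s).totalDegree ≤ D) →
      (∀ y, Pool.GEN.DepC c i (Dx y)) → (∀ s, Pool.GEN.DepC c i (Dl s)) →
      (∀ ω, A ω → |eval (Pool.GEN.bt F ω) (Dx (Pool.PB.ptr F J ω))| ≤ 1 / 2 ^ N) →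
      (∀ ω, A ω → ∀ b, Pool.GEN.NBx c (G (Pool.PB.ptr F J ω)) (fun l => ⌊(β l - d l) * J⌋₊) ⌊a * J⌋₊ (F.t ω) i b →
        |eval b (Dx (Pool.PB.ptr F J ω)) - eval b (Dl (Pool.KSAT.slam F ⌊w * J⌋₊ ω))| ≤ 1 / 2 ^ N) →
      ∃ B : F.Ω → Prop, Pool.K2S.Sub B A ∧ (1 - η') * Pool.K2S.Pe F.p A ≤ Pool.K2S.Pe F.p B ∧ ∀ ω, B ω →
        ∀ b, Pool.GEN.NBx c (G (Pool.PB.ptr F J ω)) (fun l => ⌊(β l - d l) * J⌋₊) ⌊a * J⌋₊ (F.t ω) i b →
          |eval b (Dx (Pool.PB.ptr F J ω))| ≤ 2 ^ ⌊η * J⌋₊ / 2 ^ N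

/-- **No relation between the coordinates of the chain** in the class, at the point `(a, w)`. -/
def RelvC (S : Pool.PB.PCl m) (c : ℕ → Fin m) (r : ℕ) (β : ℕ → ℝ) (a w e₀ : ℝ) : Prop :=
  ∀ (D : ℕ) (η : ℝ), 0 < η → ∃ φ : ℕ → ℕ → ℝ, (∀ l n, 0 < φ l n) ∧
    ∀ i ≤ r, ∀ (K : ℕ → ℕ) (d : ℕ → ℝ), Pool.CHT.Hie φ i K d → ∀ η' : ℝ, 0 < η' →
      Pool.S6C.Bas S (Pool.W.CHT.RelvS c i K β d a w e₀ D η η')


end Pool.W.CHT
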