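import Pool.Agent.H2.GEN.AttH
import Pool.Agent.H31.W.H2.GEN.AttG
import Pool.Agent.H31.W1.H2.GEN.ChT
import Pool.Agent.H31.W1.H80.GEN.Chn

/-!
# Chains at several points of a class, in greedy order

`jatt`: at finitely many points `(a k, w k)`, there are chains with the precisions of the
thresholds, up to hierarchical defects, on one large event, with small gradients, which are near
each other on the finer natural boxes (for all pairs `a k ≤ a k'`, `w k ≤ w k'`). The order of the coordinates is greedy up to `vs`, the thresholds are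
right-continuous at the points, and there is no relation between the coordinates of the chains.
-/

set_option autoImplicit false

namespace Pool.W.CHT

open Pool.CHT

open Finset Real MvPolynomial
open Pool.Agent.H49.Ent Pool.Agent.H32.Dense Pool.STK Pool.KA Pool.KSAT Pool.K2S Pool.PB Pool.S6C
open Pool.GEN
open Pool.LBT (LSys Slo Tri ThrOf)
open Pool.LEV (Law)

variable {m J : ℕ} {θ : ℝ} {S : Pool.PB.PCl m} {P : List (Fin m) × Fin m → ℝ → ℝ → ℝ}

/-! ### Auxiliary -/


/-! ### The hypotheses at the points -/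


/-- **Points of a class with a greedy order of the coordinates.** -/
structure Pts (S : Pool.PB.PCl m) (P : List (Fin m) × Fin m → ℝ → ℝ → ℝ) (θ : ℝ) (c : ℕ → Fin m)
    (r N : ℕ) (a w : ℕ → ℝ) (vs e₀ : ℝ) : Prop where
  pos : ∀ k < N, 0 < w k
  wa : ∀ k < N, w k ≤ a k
  lt : ∀ k < N, a k < 1
  rc : ∀ k < N, ∀ i < r, ∀ l ≤ i, Pool.CHT.Rc (Pool.CHT.tau P c l i) (a k) (w k)
  vis : ∀ k < N, ∀ i < r, ∀ l ≤ i, Pool.CHT.tau P c l i (a k) (w k) + θ * w k < 1
  gre : ∀ k < N, ∀ i < r, ∀ l < i, Pool.CHT.bet P c l (a k) (w k) ≤ Pool.CHT.tau P c l i (a k) (w k) + vs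
  srt : ∀ k < N, ∀ i < r, ∀ l < i, Pool.CHT.bet P c l (a k) (w k) ≤ Pool.CHT.bet P c i (a k) (w k) + vs
  rel : ∀ k < N, Pool.W.CHT.RelvC S c r (fun l => Pool.CHT.bet P c l (a k) (w k)) (a k) (w k) e₀


end Pool.W.CHT
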