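import Pool.Agent.H2.GEN.IsoN
import Pool.Agent.H31.W.H2.GEN.AttH
import Pool.Agent.H31.W1.H2.GEN.ChT
import Pool.Agent.H31.W1.H62.GEN.JatB
import Pool.Agent.H31.W1.H80.GEN.Chn

/-!
# Re-centred ball charts of universal degree, with the target

`iso_core`: charts of the balls with small losses give re-centred charts with all prescribed sides.
`labN`: chains of universal degree for a list of coordinates and the target on the top, under a
pointwise hypothesis `PtN` along a path. `iso_ptN`: the re-centred charts.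
-/

set_option autoImplicit false

namespace Pool.W.ISO

open Pool.ISO

open Finset Real MvPolynomial
open Pool.Agent.H49.Ent Pool.Agent.H32.Dense Pool.STK Pool.KA Pool.KSAT Pool.K2S Pool.PB Pool.S6C
open Pool.GEN Pool.CHT Pool.CHX
open Pool.LBT (LSys Slo Tri ThrOf fl_le' bas_false)
open Pool.LEV (Law)
open Pool.FLF (Fam.sub)
open Pool.JTN (TgP)


/-! ### The target on the top -/

/-- **The data of a point** `(x, y)` for joint chains of `c 0, …, c (r - 1)` and of the target
`c r`: a greedy order with the slowness `vs`, the exponent `e` of the gradients of the list, a label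
of the target with the precision `Pt x y`, visible up to `sg`, and the exponent `E` of its
gradients. -/
structure PtN {m : ℕ} (S : Pool.PB.PCl m) (P : List (Fin m) × Fin m → ℝ → ℝ → ℝ) (θ : ℝ) (c : ℕ → Fin m) (r : ℕ)
    (Pt : ℝ → ℝ → ℝ) (x y vs e e₀ E sg : ℝ) : Prop where
  pts : Pool.W.CHT.Pts S P θ c r 1 (fun _ => x) (fun _ => y) vs e₀
  vs0 : 0 ≤ vs
  e1 : Pool.CHT.Csl r r * vs < e
  e2 : e ≤ e₀
  E1 : (e + vs) * (r + 1) < E
  E2 : sg < E + Pt x y ∨ 1 ≤ r ∧ sg < E + Pool.CHT.bet P c (r - 1) x y
  tg : Pool.W.JTN.TgP S c r (Pt x y) x y sg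
  low : x ≤ Pt x y
  lt : Pt x y < 1


end Pool.W.ISO
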